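import Pool.Agent.Y310.FB4

/-!
# MP_056161_an: a `C¹` free boundary of `Δu = x₁ χ_D` which is not `C^{1,α}`

The plane `ℝ²` is `ℂ` with its Euclidean norm, `x₁ = z.re`, `x₂ = z.im`; a rotation of coordinates
is the multiplication by a complex number `c` with `‖c‖ = 1`.

In complex notation, with `F(w) = w (2 - log w)` on the half disc `{re w > 0, |w| < 1}`,
`D ∩ B₂ = F({re w > 0, |w| < 1}) ∩ B₂` and
`u(z) = x₁³/6 + (π²/8) re (w³ (4/9 - log w / 3))`, `z = F(w)`, in `D`; `u = 0` outside `D`.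
-/

set_option autoImplicit false

open Set Metric MeasureTheory Laplacian
open scoped ContDiff

namespace Pool.Agent.Results.MP_056161_an.C1NotHoelder

/-- `D` is a Lipschitz domain: open, connected, and near every boundary point `p`, in rotated
coordinates centred at `p`, `D` is the region above the graph of a Lipschitz function. -/
structure IsLipschitzDomain (D : Set ℂ) : Prop where
  isOpen : IsOpen D
  isConnected : IsConnected D
  boundary : ∀ p ∈ frontier D, ∃ (c : ℂ) (ρ : ℝ) (K : NNReal) (g : ℝ → ℝ),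
    ‖c‖ = 1 ∧ 0 < ρ ∧ LipschitzWith K g ∧
      ∀ z, ‖z - p‖ < ρ → (z ∈ D ↔ g (c * (z - p)).re < (c * (z - p)).im)

/-- `u ∈ C^{1,1}_loc(B₂)`, `Δu = x₁ χ_D` almost everywhere in `B₂` (`u` being of class `C²` near
almost every point) and `u = 0` in `B₂` outside the closure of `D`. -/
structure IsSolution (D : Set ℂ) (u : ℂ → ℝ) : Prop where
  contDiff_one : ContDiffOn ℝ 1 u (ball 0 2)
  gradient_lipschitz : ∀ K : Set ℂ, IsCompact K → K ⊆ ball 0 2 →
    ∃ L : NNReal, LipschitzOnWith L (fderiv ℝ u) K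
  equation : ∀ᵐ z : ℂ, z ∈ ball (0 : ℂ) 2 →
    ContDiffAt ℝ 2 u z ∧ Δ u z = D.indicator (fun z => z.re) z
  zero_outside : ∀ z ∈ ball (0 : ℂ) 2, z ∉ closure D → u z = 0

/-- Inside the disc of radius `ρ` about `0`, and in the coordinates rotated by `c`, the boundary
of `D` is the graph of `g`. -/
def IsGraphNear (D : Set ℂ) (ρ : ℝ) (c : ℂ) (g : ℝ → ℝ) : Prop :=
  0 < ρ ∧ ‖c‖ = 1 ∧ ∀ z : ℂ, ‖z‖ < ρ → (z ∈ frontier D ↔ (c * z).im = g (c * z).re)

/-- `∂D` is `C^{1,α}` near `0`. -/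
def BoundaryHoelder (α : ℝ) (D : Set ℂ) : Prop :=
  ∃ (ρ : ℝ) (c : ℂ) (g : ℝ → ℝ), IsGraphNear D ρ c g ∧ ContDiffOn ℝ 1 g (Ioo (-ρ) ρ) ∧
    ∃ C : ℝ, ∀ s ∈ Ioo (-ρ) ρ, ∀ t ∈ Ioo (-ρ) ρ, |deriv g s - deriv g t| ≤ C * |s - t| ^ α

/-- `∂D` is of class `C^k` near `0`, for `k = 1, 2, …, ∞` or `ω` (real-analytic). -/
def BoundaryClass (k : WithTop ℕ∞) (D : Set ℂ) : Prop :=
  ∃ (ρ : ℝ) (c : ℂ) (g : ℝ → ℝ), IsGraphNear D ρ c g ∧ ContDiffOn ℝ k g (Ioo (-ρ) ρ)

/-- **Negative answer to Q1 (a), (b), (c).** There are a Lipschitz domain `D` with `0 ∈ ∂D` and a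
solution `u` such that `∂D` is `C¹` near `0`, but not `C^{1,α}` near `0` for any `α > 0`, and
neither `C^∞` nor real-analytic near `0`. -/
theorem result : ∃ (D : Set ℂ) (u : ℂ → ℝ), IsLipschitzDomain D ∧ 0 ∈ frontier D ∧
    IsSolution D u ∧ BoundaryClass 1 D ∧ (∀ α : ℝ, 0 < α → ¬ BoundaryHoelder α D) ∧
    ¬ BoundaryClass ∞ D ∧ ¬ BoundaryClass ω D := by
  open Pool.Agent.Y310.FB in
  have hno : ∀ α : ℝ, 0 < α → ¬ BoundaryHoelder α D := by
    rintro α hα ⟨ρ, c, g, ⟨hρ, hc, hgr⟩, hg, C, hC⟩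
    exact no_holder hα hρ hc hgr hg hC
  open Pool.Agent.Y310.FB in
  have hsm : ¬ BoundaryClass ∞ D := by
    rintro ⟨ρ, c, g, ⟨hρ, hc, hgr⟩, hg⟩
    have hsub : Ioo (-(ρ / 2)) (ρ / 2) ⊆ Ioo (-ρ) ρ := Ioo_subset_Ioo (by linarith) (by linarith)
    have hsubc : Icc (-(ρ / 2)) (ρ / 2) ⊆ Ioo (-ρ) ρ := fun x hx =>
      ⟨by linarith [hx.1], by linarith [hx.2]⟩
    have h2 : ContDiffOn ℝ 2 g (Ioo (-ρ) ρ) := by exact_mod_cast contDiffOn_infty.1 hg 2
    have h1 : ContDiffOn ℝ 1 g (Ioo (-ρ) ρ) := by exact_mod_cast contDiffOn_infty.1 hg 1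
    rw [show (2 : WithTop ℕ∞) = 1 + 1 by norm_num,
      contDiffOn_succ_iff_deriv_of_isOpen isOpen_Ioo] at h2
    have h3 : ContDiffOn ℝ 1 (deriv g) (Ioo (-ρ) ρ) := h2.2.2
    have h3c : ContinuousOn (deriv (deriv g)) (Ioo (-ρ) ρ) :=
      h3.continuousOn_deriv_of_isOpen isOpen_Ioo le_rfl
    obtain ⟨C, hC⟩ := isCompact_Icc.exists_bound_of_continuousOn (h3c.mono hsubc)
    refine hno 1 one_pos ⟨ρ / 2, c, g, ⟨by linarith, hc, fun z hz => hgr z (by linarith)⟩,
      h1.mono hsub, C, fun s hs t ht => ?_⟩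
    rw [Real.rpow_one, ← Real.norm_eq_abs, ← Real.norm_eq_abs]
    refine (convex_Icc (-(ρ / 2)) (ρ / 2)).norm_image_sub_le_of_norm_deriv_le
      (f := deriv g) (fun x hx => ?_) hC (Ioo_subset_Icc_self ht) (Ioo_subset_Icc_self hs)
    exact (h3.differentiableOn (by norm_num)).differentiableAt (isOpen_Ioo.mem_nhds (hsubc hx))
  open Pool.Agent.Y310.FB in
  refine ⟨D, u, ⟨D_open, D_conn, ?_⟩, ?_, ⟨u_C1, ?_, ?_, ?_⟩, ?_, hno, hsm, ?_⟩
  · -- Lipschitz domain
    intro p _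
    refine ⟨Complex.I, 1, ⟨Real.pi / 2, by positivity⟩, fun y => φ (p.im - y) - p.re,
      Complex.norm_I, one_pos, ?_, ?_⟩
    · apply LipschitzWith.of_dist_le_mul
      intro x y
      rw [Real.dist_eq, Real.dist_eq]
      have h1 := φ_lip (p.im - x) (p.im - y)
      have h2 : p.im - x - (p.im - y) = -(x - y) := by ring
      rw [h2, abs_neg] at h1
      have h3 : φ (p.im - x) - p.re - (φ (p.im - y) - p.re) = φ (p.im - x) - φ (p.im - y) := by
        ring
      rw [h3]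
      exact h1
    · intro z _
      rw [(I_coord' (z - p)).1, (I_coord' (z - p)).2]
      simp only [Complex.sub_im, Complex.sub_re]
      have h1 : p.im - -(z.im - p.im) = z.im := by ring
      rw [h1]
      constructor
      · intro h
        have : φ z.im < z.re := h
        linarith
      · intro h
        show φ z.im < z.re
        linarith
  · rw [frontier_D]; simp [φ_zero]
  · intro K _ hK
    exact ⟨15, fderiv_lip.mono hK⟩
  · have h0 : ∀ᵐ z : ℂ, z ∉ frontier D := measure_eq_zero_iff_ae_notMem.1 frontier_null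
    filter_upwards [h0] with z hz hz2
    by_cases h : z ∈ D
    · rw [indicator_of_mem h]
      exact laplace_D ⟨h, mem_ball_zero_iff.1 hz2⟩
    · rw [indicator_of_notMem h]
      apply laplace_out
      intro h'
      apply hz
      rw [D_open.frontier_eq]
      exact ⟨h', h⟩
  · intro z _ hz
    exact u_of_not fun h => hz (subset_closure h)
  · refine ⟨2, -Complex.I, fun y => - φ y, ⟨by norm_num, by simp, ?_⟩, φ_contDiffOn.neg⟩
    intro z _
    rw [frontier_D, (I_coord z).1, (I_coord z).2]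
    constructor
    · intro h
      have : z.re = φ z.im := h
      rw [this]
    · intro h
      show z.re = φ z.im
      linarith
  · rintro ⟨ρ, c, g, hgr, hg⟩
    exact hsm ⟨ρ, c, g, hgr, hg.of_le (by exact_mod_cast le_top)⟩

end Pool.Agent.Results.MP_056161_an.C1NotHoelder
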